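import Mathlib
import Pool.Graph.R_seed8.Helper130.Final92

/-!
# MP_92fb3f_an: the separable complementation property is not determined by the dual
-/

set_option autoImplicit false

open scoped ENNReal BigOperators Topology
open Filter TopologicalSpace Pool.Agent.Helper130

namespace Pool.Agent.Results.MP_92fb3f_an.SameDual

/-- `Z` is the range of a bounded projection of `E`. -/
def Complemented (E : Type) [NormedAddCommGroup E] [NormedSpace ℝ E] (Z : Submodule ℝ E) : Prop :=
  ∃ P : E →L[ℝ] E, (∀ x, P x ∈ Z) ∧ ∀ z ∈ Z, P z = z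

/-- The separable complementation property: every separable subspace is contained in a separable
closed subspace that is the range of a bounded projection. -/
def SCP (E : Type) [NormedAddCommGroup E] [NormedSpace ℝ E] : Prop :=
  ∀ Y : Submodule ℝ E, IsSeparable (Y : Set E) →
    ∃ Z : Submodule ℝ E, Y ≤ Z ∧ IsClosed (Z : Set E) ∧ IsSeparable (Z : Set E) ∧
      Complemented E Z

/-- The duals of `X` and `Y` are isomorphic (linearly homeomorphic). -/
def IsoDuals (X Y : Type) [NormedAddCommGroup X] [NormedSpace ℝ X] [NormedAddCommGroup Y]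
    [NormedSpace ℝ Y] : Prop := Nonempty ((X →L[ℝ] ℝ) ≃L[ℝ] (Y →L[ℝ] ℝ))

/-- The bidual of `X` has the separable complementation property. -/
def BidualSCP (X : Type) [NormedAddCommGroup X] [NormedSpace ℝ X] : Prop :=
  SCP ((X →L[ℝ] ℝ) →L[ℝ] ℝ)

/-- `X` has a separable subspace `Y` such that no bounded operator on `X` with separable range is
the identity on `Y`. -/
def NoSepOperator (X : Type) [NormedAddCommGroup X] [NormedSpace ℝ X] : Prop :=
  ∃ Y : Submodule ℝ X, IsSeparable (Y : Set X) ∧
    ∀ P : X →L[ℝ] X, IsSeparable (Set.range P) → ¬ ∀ y ∈ Y, P y = y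

/-- `ℓ¹(N)` -/
abbrev L1 (N : Type) : Type := lp (fun _ : N => ℝ) 1

open Classical in
theorem memℓp_restr {N : Type} (A : Set N) (f : L1 N) :
    Memℓp (fun n => if n ∈ A then f n else (0 : ℝ)) 1 := by
  have h1 := (lp.memℓp f)
  rw [memℓp_gen_iff (by simp)] at h1 ⊢
  refine Summable.of_nonneg_of_le (fun n => by positivity) (fun n => ?_) h1
  split_ifs
  · exact le_rfl
  · simp

open Classical in
/-- restriction to a subset -/
noncomputable def restr {N : Type} (A : Set N) : L1 N →L[ℝ] L1 N :=
  LinearMap.mkContinuous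
    { toFun := fun f => ⟨fun n => if n ∈ A then f n else 0, memℓp_restr A f⟩
      map_add' := fun f g => by
        apply lp.ext
        funext n
        show (if n ∈ A then (f + g) n else 0 : ℝ) =
          (if n ∈ A then f n else 0) + (if n ∈ A then g n else 0)
        by_cases h : n ∈ A <;> simp [h]
      map_smul' := fun c f => by
        apply lp.ext
        funext n
        show (if n ∈ A then (c • f) n else 0 : ℝ) = c * (if n ∈ A then f n else 0)
        by_cases h : n ∈ A <;> simp [h] }
    1 (fun f => by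
      rw [one_mul, lp.norm_eq_tsum_rpow (by simp), lp.norm_eq_tsum_rpow (by simp)]
      have h1 := (lp.memℓp f)
      rw [memℓp_gen_iff (by simp)] at h1
      simp only [ENNReal.toReal_one, Real.rpow_one, ne_eq, one_ne_zero, not_false_eq_true,
        div_self] at h1 ⊢
      refine Summable.tsum_le_tsum (fun n => ?_) ?_ h1
      · show ‖(if n ∈ A then f n else 0 : ℝ)‖ ≤ ‖f n‖
        split_ifs
        · exact le_rfl
        · simp
      · refine Summable.of_nonneg_of_le (fun n => norm_nonneg _) (fun n => ?_) h1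
        show ‖(if n ∈ A then f n else 0 : ℝ)‖ ≤ ‖f n‖
        split_ifs
        · exact le_rfl
        · simp)

open Classical in
theorem restr_apply {N : Type} (A : Set N) (f : L1 N) (n : N) :
    restr A f n = if n ∈ A then f n else 0 := rfl

/-- `ℓ¹(N)` has the separable complementation property. -/
theorem scp_l1 (N : Type) : SCP (L1 N) := by
  classical
  intro Y hY
  obtain ⟨c, hc, hYc⟩ := hY
  let A : Set N := ⋃ y ∈ c, {n | (y : L1 N) n ≠ 0}
  have hA : A.Countable := by
    apply hc.biUnion
    intro y _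
    have h1 : Summable (fun j => ‖(y : L1 N) j‖) := by
      have := (lp.memℓp y).summable (by simp)
      simpa using this
    refine h1.countable_support.mono ?_
    intro j hj
    simpa using hj
  let Z : Submodule ℝ (L1 N) :=
    { carrier := {f | ∀ n, n ∉ A → f n = 0}
      zero_mem' := fun n _ => rfl
      add_mem' := fun {f g} hf hg n hn => by
        rw [lp.coeFn_add, Pi.add_apply, hf n hn, hg n hn, add_zero]
      smul_mem' := fun r f hf n hn => by
        rw [lp.coeFn_smul, Pi.smul_apply, hf n hn, smul_zero] }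
  have hZ : ∀ f : L1 N, f ∈ Z ↔ ∀ n, n ∉ A → f n = 0 := fun f => Iff.rfl
  have hev : ∀ n : N, Continuous (fun f : L1 N => f n) := fun n =>
    (lp.evalCLM ℝ (fun _ : N => ℝ) 1 n).continuous
  have hZc : IsClosed (Z : Set (L1 N)) := by
    have h1 : (Z : Set (L1 N)) = ⋂ (n : N) (_ : n ∉ A), {f : L1 N | f n = 0} := by
      ext f
      simp only [SetLike.mem_coe, hZ, Set.mem_iInter, Set.mem_ofPred_eq]
    rw [h1]
    exact isClosed_iInter fun n => isClosed_iInter fun _ =>
      isClosed_eq (hev n) continuous_const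
  refine ⟨Z, ?_, hZc, ?_, restr A, ?_, ?_⟩
  · intro f hf
    have h1 : c ⊆ (Z : Set (L1 N)) := by
      intro y hy n hn
      by_contra h
      exact hn (Set.mem_biUnion hy h)
    exact (closure_minimal h1 hZc) (hYc hf)
  · let Q : Submodule ℝ (L1 N) := (Submodule.span ℝ
      ((fun n : N => lp.single (E := fun _ : N => ℝ) 1 n (1 : ℝ)) '' A)).topologicalClosure
    have hQs : IsSeparable (Q : Set (L1 N)) :=
      ((hA.image _).isSeparable.span (R := ℝ)).closure
    have hQc : IsClosed (Q : Set (L1 N)) := Submodule.isClosed_topologicalClosure _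
    refine hQs.mono ?_
    intro f hf
    have hs : HasSum (fun j => lp.single (E := fun _ : N => ℝ) 1 j (f j)) f :=
      lp.hasSum_single (by simp) _
    have hterm : ∀ j, lp.single (E := fun _ : N => ℝ) 1 j (f j) ∈ Q := by
      intro j
      by_cases hj : j ∈ A
      · have h1 : lp.single (E := fun _ : N => ℝ) 1 j (f j) =
            f j • lp.single (E := fun _ : N => ℝ) 1 j (1 : ℝ) := by
          rw [← lp.single_smul]
          simp
        rw [h1]
        exact Q.smul_mem _ (Submodule.le_topologicalClosure _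
          (Submodule.subset_span ⟨j, hj, rfl⟩))
      · rw [hf j hj]
        have h2 : lp.single (E := fun _ : N => ℝ) 1 j (0 : ℝ) = 0 :=
          map_zero (lp.singleContinuousLinearMap ℝ (fun _ : N => ℝ) 1 j)
        rw [h2]
        exact Q.zero_mem
    exact hQc.mem_of_tendsto hs (Filter.Eventually.of_forall fun s =>
      Submodule.sum_mem _ (fun j _ => hterm j))
  · intro f n hn
    rw [restr_apply, if_neg hn]
  · intro f hf
    apply lp.ext
    funext n
    rw [restr_apply]
    by_cases hn : n ∈ A
    · rw [if_pos hn]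
    · rw [if_neg hn, hf n hn]

/-- the dual of `ℓ¹(ℕ × M)` is `ℓ∞(ℕ × M)` -/
theorem dual_l1 (M : Type) : Nonempty ((L1 (ℕ × M) →L[ℝ] ℝ) ≃L[ℝ] Linf (ℕ × M)) := by
  obtain ⟨e⟩ := pel (X := PUnit) (M := M) 0 0 (fun x => by
    ext y
    have : y = 0 := rfl
    rw [this, map_zero, map_zero])
  have e1 : (PUnit × L1 (ℕ × M)) ≃L[ℝ] L1 (ℕ × M) :=
    { toFun := fun x => x.2
      invFun := fun y => (PUnit.unit, y)
      left_inv := fun x => rfl
      right_inv := fun y => rfl
      map_add' := fun x y => rfl
      map_smul' := fun c x => rfl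
      continuous_toFun := continuous_snd
      continuous_invFun := by fun_prop }
  exact ⟨(e1.symm.arrowCongr (ContinuousLinearEquiv.refl ℝ ℝ)).trans e⟩

/-- **Main theorem.** There are a Banach space `X` and a set `N` such that the dual of `X` is
isomorphic to the dual of `ℓ¹(N)` (hence to `ℓ∞(N)`), `X**` and `ℓ¹(N)` have the separable
complementation property, but `X` has a separable subspace `Y` such that no bounded operator on `X`
with separable range is the identity on `Y`; in particular `X` does not have the property. -/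
theorem result : ∃ (X : Type) (_ : NormedAddCommGroup X) (_ : NormedSpace ℝ X)
    (_ : CompleteSpace X) (N : Type),
    IsoDuals X (L1 N) ∧ BidualSCP X ∧ SCP (L1 N) ∧ ¬ SCP X ∧ NoSepOperator X := by
  obtain ⟨jm, ψ, hψ⟩ := exists_embed
  have hc : CompleteSpace (kerSpace FJ) :=
    (isClosed_kerSpace (fun j => isClosed_FF (SJ j))).completeSpace_coe
  obtain ⟨e⟩ := pel jm ψ hψ
  obtain ⟨e1⟩ := dual_l1 (ℕ × JJ × Finset ℕ)
  have hY : NoSepOperator (kerSpace FJ × lp (fun _ : ℕ × (ℕ × JJ × Finset ℕ) => ℝ) 1) := by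
    refine ⟨WW.map (LinearMap.inl ℝ (kerSpace FJ)
      (lp (fun _ : ℕ × (ℕ × JJ × Finset ℕ) => ℝ) 1)), ?_, ?_⟩
    · rw [Submodule.map_coe]
      exact isSeparable_WW.image (ContinuousLinearMap.inl ℝ (kerSpace FJ)
        (lp (fun _ : ℕ × (ℕ × JJ × Finset ℕ) => ℝ) 1)).continuous
    · intro P hPs hP
      let Q : kerSpace FJ →L[ℝ] kerSpace FJ :=
        ((ContinuousLinearMap.fst ℝ (kerSpace FJ)
          (lp (fun _ : ℕ × (ℕ × JJ × Finset ℕ) => ℝ) 1)).comp P).comp
          (ContinuousLinearMap.inl ℝ (kerSpace FJ)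
            (lp (fun _ : ℕ × (ℕ × JJ × Finset ℕ) => ℝ) 1))
      have hQ : ∀ b, Q b = (P (b, 0)).1 := fun b => rfl
      apply not_op Q
      · intro b hb
        have h1 : P (b, 0) = (b, 0) := hP _ ⟨b, hb, rfl⟩
        rw [hQ, h1]
      · refine (hPs.image continuous_fst).mono ?_
        rintro _ ⟨b, rfl⟩
        exact ⟨P (b, 0), ⟨_, rfl⟩, rfl⟩
  refine ⟨kerSpace FJ × lp (fun _ : ℕ × (ℕ × JJ × Finset ℕ) => ℝ) 1, inferInstance, inferInstance,
    inferInstance, ℕ × (ℕ × JJ × Finset ℕ), ⟨e.trans e1.symm⟩, bidual_equiv e, scp_l1 _, ?_, hY⟩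
  intro hS
  obtain ⟨Y, hYs, hYP⟩ := hY
  obtain ⟨Z, hYZ, _, hZs, P, hP1, hP2⟩ := hS Y hYs
  refine hYP P (hZs.mono ?_) (fun y hy => hP2 y (hYZ hy))
  rintro _ ⟨x, rfl⟩
  exact hP1 x

end Pool.Agent.Results.MP_92fb3f_an.SameDual
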